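import Pool.Agent.Helper88.SetTh.Reflect

/-!
# `MS(OD)` fails in `L[c]` for every Cohen real `c` over `L`

All the definitions used in the statement are in `Pool.Agent.Helper88.SetTh.Defs`.
-/

set_option autoImplicit false

universe u

namespace Pool.Agent.Results.MP_f34575_lc.NotMSOD

open Pool.Agent.Helper88.SetTh

/-- Let `c` be a Cohen real over `L`, and let `A` be the set of all reals of `L[c]` that are Cohen
over `L` and have the same constructibility degree as `c`. In `L[c]`, the set `A` is ordinal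
definable, it contains the nonconstructible real `c`, and it has no perfect subset. So the property
`MS(OD)` fails in `L[c]`. -/
theorem result (c : ℕ → ℕ) (hc : IsCohen.{u} c) :
    (IsODIn (LC (code.{u} c)) (CohenEquiv.{u} c) ∧
      IsODRank (LC (code.{u} c)) (CohenEquiv.{u} c)) ∧
    (c ∈ CohenEquiv.{u} c ∧ code.{u} c ∉ LL) ∧
    (¬ ∃ P ∈ LC (code.{u} c), PerfectIn (LC (code.{u} c)) P ∧
      ∀ x, code x ∈ P → x ∈ CohenEquiv.{u} c) ∧
    ¬ MSOD (LC (code.{u} c)) :=
  ⟨⟨cohenEquiv_OD hc, isODRank_of_isODIn (good_LC _).empty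
      (fun _ hp => LL_sub_LC _ (ordinal_mem_LL hp)) (cohenEquiv_OD hc)⟩,
    ⟨self_mem_cohenEquiv hc, cohen_not_mem_LL hc⟩,
    fun ⟨_, hPN, hP, hsub⟩ => no_perfect hc hPN hP hsub,
    not_MSOD hc⟩

end Pool.Agent.Results.MP_f34575_lc.NotMSOD
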